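import Pool.Agent.Helper64.PhiLev

/-! Levels 2, 3, 4 in closed form. Here `n m` are real numbers with `0 < m < n`, `N = 4 n^2 - m^2`,
`ω^2 N = 6`, `lam^2 = 2 - n^2 ω^2` (so `4 lam^2 = 2 - m^2 ω^2`), `o = B sin (n ω t) exp (-lam x) + ...`. -/

set_option autoImplicit false

namespace Phi4

open Real

/-! ### level 2 -/

/-- level 2 of the even part -/
noncomputable def E2f (B n m ω t : ℝ) : ℝ :=
  B ^ 2 * (-(4 * n ^ 2 - m ^ 2) / (4 * m ^ 2) - 1 / 4 * cos (2 * n * ω * t) + n ^ 2 / m ^ 2 * cos (m * ω * t))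
/-- its derivative -/
noncomputable def E2f1 (B n m ω t : ℝ) : ℝ :=
  B ^ 2 * (1 / 4 * (2 * n * ω) * sin (2 * n * ω * t) - n ^ 2 / m ^ 2 * (m * ω) * sin (m * ω * t))

theorem hasDerivAt_E2f (B n m ω t : ℝ) : HasDerivAt (E2f B n m ω) (E2f1 B n m ω t) t := by
  unfold E2f E2f1
  have h1 := (hasDerivAt_cos_om (2 * n * ω) t).const_mul (1 / 4)
  have h2 := (hasDerivAt_cos_om (m * ω) t).const_mul (n ^ 2 / m ^ 2)
  have h3 := (((hasDerivAt_const t (-(4 * n ^ 2 - m ^ 2) / (4 * m ^ 2))).sub h1).add h2).const_mul (B ^ 2)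
  refine h3.congr_deriv ?_
  ring

theorem E2f_zero {m : ℝ} (B n ω : ℝ) (hm : m ≠ 0) : E2f B n m ω 0 = 0 := by
  unfold E2f
  simp
  right
  field_simp
  ring

theorem E2f1_zero (B n m ω : ℝ) : E2f1 B n m ω 0 = 0 := by
  unfold E2f1; simp

theorem sin_sq_half (a : ℝ) : sin a ^ 2 = (1 - cos (2 * a)) / 2 := by
  rw [sin_sq, cos_sq]; ring

theorem hasDerivAt_E2f1 {n m ω lam : ℝ} (B : ℝ) (hm : m ≠ 0) (hN : ω ^ 2 * (4 * n ^ 2 - m ^ 2) = 6)
    (hl : lam ^ 2 = 2 - n ^ 2 * ω ^ 2) (t : ℝ) :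
    HasDerivAt (E2f1 B n m ω) (((2 * lam) ^ 2 - 2) * E2f B n m ω t - 3 * (B * sin (n * ω * t)) ^ 2) t := by
  have h1 := (hasDerivAt_sin_om (2 * n * ω) t).const_mul (1 / 4 * (2 * n * ω))
  have h2 := (hasDerivAt_sin_om (m * ω) t).const_mul (n ^ 2 / m ^ 2 * (m * ω))
  have h3 := (h1.sub h2).const_mul (B ^ 2)
  have e : E2f1 B n m ω = fun t => B ^ 2 * (1 / 4 * (2 * n * ω) * sin (2 * n * ω * t) -
      n ^ 2 / m ^ 2 * (m * ω) * sin (m * ω * t)) := by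
    funext t; rfl
  rw [e]
  refine h3.congr_deriv ?_
  have hq : (2 * lam) ^ 2 - 2 = -(m ^ 2 * ω ^ 2) := by linear_combination 4 * hl - hN
  have hs : (B * sin (n * ω * t)) ^ 2 = B ^ 2 * ((1 - cos (2 * n * ω * t)) / 2) := by
    rw [mul_pow, sin_sq_half]
    have : 2 * (n * ω * t) = 2 * n * ω * t := by ring
    rw [this]
  rw [hq, hs]
  unfold E2f
  have hm2 : m ^ 2 ≠ 0 := pow_ne_zero 2 hm
  have e1 : n ^ 2 / m ^ 2 * (m * ω) * (m * ω) = n ^ 2 * ω ^ 2 := by field_simp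
  have e2 : -(m ^ 2 * ω ^ 2) * (B ^ 2 * (-(4 * n ^ 2 - m ^ 2) / (4 * m ^ 2) - 1 / 4 * cos (2 * n * ω * t) +
      n ^ 2 / m ^ 2 * cos (m * ω * t))) = B ^ 2 * ((ω ^ 2 * (4 * n ^ 2 - m ^ 2)) / 4 +
      m ^ 2 * ω ^ 2 / 4 * cos (2 * n * ω * t) - n ^ 2 * ω ^ 2 * cos (m * ω * t)) := by
    field_simp
    ring
  rw [e2]
  have e3 : n ^ 2 / m ^ 2 * (m * ω) * (m * ω * cos (m * ω * t)) = n ^ 2 * ω ^ 2 * cos (m * ω * t) := by
    rw [← mul_assoc, e1]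
  rw [e3]
  linear_combination (B ^ 2 / 4 * (cos (2 * n * ω * t) - 1)) * hN

/-! ### level 3 -/

/-- coefficient of `sin (n ω t)` in level 3 -/
noncomputable def U3 (n m : ℝ) : ℝ := -(3 * (4 * n ^ 2 - m ^ 2) * (2 * n ^ 2 - m ^ 2)) / (16 * m ^ 2 * (n ^ 2 - m ^ 2))
/-- coefficient of `sin ((n + m) ω t)` in level 3; `m` replaced by `-m` gives the coefficient of
`sin ((n - m) ω t)` -/
noncomputable def V3 (n m : ℝ) : ℝ := 3 * n ^ 2 * (2 * n + m) / (2 * m ^ 2 * (4 * n + 5 * m))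

/-- level 3 of the odd part -/
noncomputable def O3f (B n m ω t : ℝ) : ℝ :=
  B ^ 3 * (-(1 / 16) * sin (3 * n * ω * t) + U3 n m * sin (n * ω * t) + V3 n m * sin ((n + m) * ω * t) +
    V3 n (-m) * sin ((n - m) * ω * t))
/-- its derivative -/
noncomputable def O3f1 (B n m ω t : ℝ) : ℝ :=
  B ^ 3 * (-(1 / 16) * (3 * n * ω) * cos (3 * n * ω * t) + U3 n m * (n * ω) * cos (n * ω * t) +
    V3 n m * ((n + m) * ω) * cos ((n + m) * ω * t) + V3 n (-m) * ((n - m) * ω) * cos ((n - m) * ω * t))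

theorem hasDerivAt_O3f (B n m ω t : ℝ) : HasDerivAt (O3f B n m ω) (O3f1 B n m ω t) t := by
  unfold O3f O3f1
  have h1 := (hasDerivAt_sin_om (3 * n * ω) t).const_mul (-(1 / 16))
  have h2 := (hasDerivAt_sin_om (n * ω) t).const_mul (U3 n m)
  have h3 := (hasDerivAt_sin_om ((n + m) * ω) t).const_mul (V3 n m)
  have h4 := (hasDerivAt_sin_om ((n - m) * ω) t).const_mul (V3 n (-m))
  have h5 := (((h1.add h2).add h3).add h4).const_mul (B ^ 3)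
  refine h5.congr_deriv ?_
  ring

theorem O3f_zero (B n m ω : ℝ) : O3f B n m ω 0 = 0 := by
  unfold O3f; simp

theorem sin_mul_E2f (B n m ω t : ℝ) (hm : m ≠ 0) :
    6 * (B * sin (n * ω * t)) * E2f B n m ω t + (B * sin (n * ω * t)) ^ 3 =
      B ^ 3 * (-(3 * (2 * n ^ 2 - m ^ 2) / m ^ 2) * sin (n * ω * t) - sin (3 * n * ω * t) +
        3 * n ^ 2 / m ^ 2 * (sin ((n + m) * ω * t) + sin ((n - m) * ω * t))) := by
  have a1 : sin (n * ω * t) * cos (2 * n * ω * t) = (sin (3 * n * ω * t) - sin (n * ω * t)) / 2 := by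
    rw [lv_sc]
    have e1 : n * ω * t - 2 * n * ω * t = -(n * ω * t) := by ring
    have e2 : n * ω * t + 2 * n * ω * t = 3 * n * ω * t := by ring
    rw [e1, e2, sin_neg]; ring
  have a2 : sin (n * ω * t) * cos (m * ω * t) = (sin ((n + m) * ω * t) + sin ((n - m) * ω * t)) / 2 := by
    rw [lv_sc]
    have e1 : n * ω * t - m * ω * t = (n - m) * ω * t := by ring
    have e2 : n * ω * t + m * ω * t = (n + m) * ω * t := by ring
    rw [e1, e2]; ring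
  have a3 : sin (n * ω * t) ^ 3 = (3 * sin (n * ω * t) - sin (3 * n * ω * t)) / 4 := by
    have : 3 * n * ω * t = 3 * (n * ω * t) := by ring
    rw [this, sin_three_mul]; ring
  unfold E2f
  have hm2 : m ^ 2 ≠ 0 := pow_ne_zero 2 hm
  have e : 6 * (B * sin (n * ω * t)) * (B ^ 2 * (-(4 * n ^ 2 - m ^ 2) / (4 * m ^ 2) -
      1 / 4 * cos (2 * n * ω * t) + n ^ 2 / m ^ 2 * cos (m * ω * t))) + (B * sin (n * ω * t)) ^ 3 =
      B ^ 3 * (6 * (-(4 * n ^ 2 - m ^ 2) / (4 * m ^ 2)) * sin (n * ω * t) -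
        3 / 2 * (sin (n * ω * t) * cos (2 * n * ω * t)) +
        6 * (n ^ 2 / m ^ 2) * (sin (n * ω * t) * cos (m * ω * t)) + sin (n * ω * t) ^ 3) := by ring
  rw [e, a1, a2, a3]
  field_simp
  ring

theorem hasDerivAt_O3f1 {n m ω lam : ℝ} (B : ℝ) (hm : 0 < m) (hmn : m < n)
    (hN : ω ^ 2 * (4 * n ^ 2 - m ^ 2) = 6) (hl : lam ^ 2 = 2 - n ^ 2 * ω ^ 2) (h5 : 4 * n ≠ 5 * m) (t : ℝ) :
    HasDerivAt (O3f1 B n m ω) (((3 * lam) ^ 2 - 2) * O3f B n m ω t -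
      (6 * (B * sin (n * ω * t)) * E2f B n m ω t + (B * sin (n * ω * t)) ^ 3)) t := by
  have h1 := (hasDerivAt_cos_om (3 * n * ω) t).const_mul (-(1 / 16) * (3 * n * ω))
  have h2 := (hasDerivAt_cos_om (n * ω) t).const_mul (U3 n m * (n * ω))
  have h3 := (hasDerivAt_cos_om ((n + m) * ω) t).const_mul (V3 n m * ((n + m) * ω))
  have h4 := (hasDerivAt_cos_om ((n - m) * ω) t).const_mul (V3 n (-m) * ((n - m) * ω))
  have h6 := (((h1.add h2).add h3).add h4).const_mul (B ^ 3)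
  have e : O3f1 B n m ω = fun t => B ^ 3 * (-(1 / 16) * (3 * n * ω) * cos (3 * n * ω * t) +
      U3 n m * (n * ω) * cos (n * ω * t) + V3 n m * ((n + m) * ω) * cos ((n + m) * ω * t) +
      V3 n (-m) * ((n - m) * ω) * cos ((n - m) * ω * t)) := by
    funext t; rfl
  rw [e]
  refine h6.congr_deriv ?_
  rw [sin_mul_E2f B n m ω t hm.ne']
  have hn : 0 < n := hm.trans hmn
  have hnm : 0 < n ^ 2 - m ^ 2 := by nlinarith
  have hN0 : 0 < 4 * n ^ 2 - m ^ 2 := by nlinarith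
  have hq : ((3 * lam) ^ 2 - 2) * (4 * n ^ 2 - m ^ 2) = 2 * (5 * n ^ 2 - 8 * m ^ 2) := by
    linear_combination 9 * (4 * n ^ 2 - m ^ 2) * hl - 9 * n ^ 2 * hN
  set q := (3 * lam) ^ 2 - 2 with hqdef
  have h45 : 4 * n - 5 * m ≠ 0 := sub_ne_zero.2 h5
  have h45' : 0 < 4 * n + 5 * m := by positivity
  have h2n : 0 < 2 * n - m := by linarith
  have h2n' : 0 < 2 * n + m := by positivity
  have g1 := hN0.ne'
  have g2 := hnm.ne'
  have g3 := h2n.ne'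
  have g4 := h2n'.ne'
  have g5 := h45'.ne'
  have g6 := hm.ne'
  -- the four frequency identities
  have f1 : (q + (3 * n) ^ 2 * ω ^ 2) * (-(1 / 16)) = -1 := by
    have : q + (3 * n) ^ 2 * ω ^ 2 = 16 := by
      apply mul_right_cancel₀ g1
      linear_combination hq + 9 * n ^ 2 * hN
    rw [this]; norm_num
  have f2 : (q + n ^ 2 * ω ^ 2) * U3 n m = -(3 * (2 * n ^ 2 - m ^ 2) / m ^ 2) := by
    have e1 : q + n ^ 2 * ω ^ 2 = 16 * (n ^ 2 - m ^ 2) / (4 * n ^ 2 - m ^ 2) := by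
      rw [eq_div_iff g1]
      linear_combination hq + n ^ 2 * hN
    rw [e1]; unfold U3
    have e2 : ∀ N D M K : ℝ, N ≠ 0 → D ≠ 0 → M ≠ 0 →
        16 * D / N * (-(3 * N * K) / (16 * M * D)) = -(3 * K / M) := by
      intro N D M K h1 h2 h3; field_simp
    exact e2 _ _ _ _ g1 g2 (pow_ne_zero 2 g6)
  have f3 : (q + (n + m) ^ 2 * ω ^ 2) * V3 n m = 3 * n ^ 2 / m ^ 2 := by
    have e1 : q + (n + m) ^ 2 * ω ^ 2 = 2 * (4 * n + 5 * m) / (2 * n + m) := by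
      rw [eq_div_iff g4]
      apply mul_right_cancel₀ g3
      linear_combination hq + (n + m) ^ 2 * hN
    rw [e1]; unfold V3; field_simp
  have f4 : (q + (n - m) ^ 2 * ω ^ 2) * V3 n (-m) = 3 * n ^ 2 / m ^ 2 := by
    have e1 : q + (n - m) ^ 2 * ω ^ 2 = 2 * (4 * n - 5 * m) / (2 * n - m) := by
      rw [eq_div_iff g3]
      apply mul_right_cancel₀ g4
      linear_combination hq + (n - m) ^ 2 * hN
    have e2 : V3 n (-m) = 3 * n ^ 2 * (2 * n - m) / (2 * m ^ 2 * (4 * n - 5 * m)) := by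
      unfold V3; congr 1 <;> ring
    rw [e1, e2]; field_simp
  unfold O3f
  linear_combination (-(B ^ 3) * sin (3 * n * ω * t)) * f1 - (B ^ 3 * sin (n * ω * t)) * f2 -
    (B ^ 3 * sin ((n + m) * ω * t)) * f3 - (B ^ 3 * sin ((n - m) * ω * t)) * f4

/-! ### level 4 -/

/-- coefficients of level 4 -/
noncomputable def a4 (n m : ℝ) : Fin 7 → ℝ := ![
  3 * U3 n m + 3 / 2 * (-(4 * n ^ 2 - m ^ 2) / (4 * m ^ 2) + 1 / 8) +
    3 * ((-(4 * n ^ 2 - m ^ 2) / (4 * m ^ 2)) ^ 2 + 1 / 32 + (n ^ 2 / m ^ 2) ^ 2 / 2),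
  -(3 / 16) - 3 * U3 n m + 3 / 2 * (-(1 / 4) + (4 * n ^ 2 - m ^ 2) / (4 * m ^ 2)) +
    3 / 2 * ((4 * n ^ 2 - m ^ 2) / (4 * m ^ 2)),
  15 / 32,
  3 * (V3 n m + V3 n (-m)) + 3 / 2 * (n ^ 2 / m ^ 2) - 6 * ((4 * n ^ 2 - m ^ 2) / (4 * m ^ 2)) * (n ^ 2 / m ^ 2),
  3 / 2 * (n ^ 2 / m ^ 2) ^ 2,
  -(3 * V3 n m) - 3 / 2 * (n ^ 2 / m ^ 2),
  -(3 * V3 n (-m)) - 3 / 2 * (n ^ 2 / m ^ 2)]

/-- frequencies of level 4, divided by `ω` -/
noncomputable def f4 (n m : ℝ) : Fin 7 → ℝ := ![0, 2 * n, 4 * n, m, 2 * m, 2 * n + m, 2 * n - m]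

theorem level4_source (B n m ω t : ℝ) (hm : m ≠ 0) :
    6 * (B * sin (n * ω * t)) * O3f B n m ω t + 3 * (B * sin (n * ω * t)) ^ 2 * E2f B n m ω t +
      3 * E2f B n m ω t ^ 2 =
      cosP Finset.univ (fun i => B ^ 4 * a4 n m i) (fun i => f4 n m i * ω) t := by
  have s1 : sin (n * ω * t) * sin (3 * n * ω * t) = (cos (2 * n * ω * t) - cos (4 * n * ω * t)) / 2 := by
    rw [lv_ss]
    have e1 : n * ω * t - 3 * n * ω * t = -(2 * n * ω * t) := by ring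
    have e2 : n * ω * t + 3 * n * ω * t = 4 * n * ω * t := by ring
    rw [e1, e2, cos_neg]
  have s2 : sin (n * ω * t) * sin (n * ω * t) = (1 - cos (2 * n * ω * t)) / 2 := by
    rw [lv_ss]
    have e1 : n * ω * t - n * ω * t = 0 := by ring
    have e2 : n * ω * t + n * ω * t = 2 * n * ω * t := by ring
    rw [e1, e2, cos_zero]
  have s3 : sin (n * ω * t) * sin ((n + m) * ω * t) = (cos (m * ω * t) - cos ((2 * n + m) * ω * t)) / 2 := by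
    rw [lv_ss]
    have e1 : n * ω * t - (n + m) * ω * t = -(m * ω * t) := by ring
    have e2 : n * ω * t + (n + m) * ω * t = (2 * n + m) * ω * t := by ring
    rw [e1, e2, cos_neg]
  have s4 : sin (n * ω * t) * sin ((n - m) * ω * t) = (cos (m * ω * t) - cos ((2 * n - m) * ω * t)) / 2 := by
    rw [lv_ss]
    have e1 : n * ω * t - (n - m) * ω * t = m * ω * t := by ring
    have e2 : n * ω * t + (n - m) * ω * t = (2 * n - m) * ω * t := by ring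
    rw [e1, e2]
  have c1 : cos (2 * n * ω * t) * cos (2 * n * ω * t) = (1 + cos (4 * n * ω * t)) / 2 := by
    rw [lv_cc]
    have e1 : 2 * n * ω * t - 2 * n * ω * t = 0 := by ring
    have e2 : 2 * n * ω * t + 2 * n * ω * t = 4 * n * ω * t := by ring
    rw [e1, e2, cos_zero]
  have c2 : cos (2 * n * ω * t) * cos (m * ω * t) =
      (cos ((2 * n - m) * ω * t) + cos ((2 * n + m) * ω * t)) / 2 := by
    rw [lv_cc]
    have e1 : 2 * n * ω * t - m * ω * t = (2 * n - m) * ω * t := by ring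
    have e2 : 2 * n * ω * t + m * ω * t = (2 * n + m) * ω * t := by ring
    rw [e1, e2]
  have c3 : cos (m * ω * t) * cos (m * ω * t) = (1 + cos (2 * m * ω * t)) / 2 := by
    rw [lv_cc]
    have e1 : m * ω * t - m * ω * t = 0 := by ring
    have e2 : m * ω * t + m * ω * t = 2 * m * ω * t := by ring
    rw [e1, e2, cos_zero]
  have hr : cosP Finset.univ (fun i => B ^ 4 * a4 n m i) (fun i => f4 n m i * ω) t =
      B ^ 4 * (a4 n m 0 + a4 n m 1 * cos (2 * n * ω * t) + a4 n m 2 * cos (4 * n * ω * t) +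
        a4 n m 3 * cos (m * ω * t) + a4 n m 4 * cos (2 * m * ω * t) + a4 n m 5 * cos ((2 * n + m) * ω * t) +
        a4 n m 6 * cos ((2 * n - m) * ω * t)) := by
    unfold cosP
    rw [Fin.sum_univ_seven]
    have b0 : f4 n m 0 = 0 := rfl
    have b1 : f4 n m 1 = 2 * n := rfl
    have b2 : f4 n m 2 = 4 * n := rfl
    have b3 : f4 n m 3 = m := rfl
    have b4 : f4 n m 4 = 2 * m := rfl
    have b5 : f4 n m 5 = 2 * n + m := rfl
    have b6 : f4 n m 6 = 2 * n - m := rfl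
    beta_reduce
    rw [b0, b1, b2, b3, b4, b5, b6]
    simp only [zero_mul, cos_zero, mul_one]
    ring
  rw [hr]
  have a0 : a4 n m 0 = 3 * U3 n m + 3 / 2 * (-(4 * n ^ 2 - m ^ 2) / (4 * m ^ 2) + 1 / 8) +
    3 * ((-(4 * n ^ 2 - m ^ 2) / (4 * m ^ 2)) ^ 2 + 1 / 32 + (n ^ 2 / m ^ 2) ^ 2 / 2) := rfl
  have a1 : a4 n m 1 = -(3 / 16) - 3 * U3 n m + 3 / 2 * (-(1 / 4) + (4 * n ^ 2 - m ^ 2) / (4 * m ^ 2)) +
    3 / 2 * ((4 * n ^ 2 - m ^ 2) / (4 * m ^ 2)) := rfl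
  have a2 : a4 n m 2 = 15 / 32 := rfl
  have a3 : a4 n m 3 = 3 * (V3 n m + V3 n (-m)) + 3 / 2 * (n ^ 2 / m ^ 2) -
    6 * ((4 * n ^ 2 - m ^ 2) / (4 * m ^ 2)) * (n ^ 2 / m ^ 2) := rfl
  have a4' : a4 n m 4 = 3 / 2 * (n ^ 2 / m ^ 2) ^ 2 := rfl
  have a5 : a4 n m 5 = -(3 * V3 n m) - 3 / 2 * (n ^ 2 / m ^ 2) := rfl
  have a6 : a4 n m 6 = -(3 * V3 n (-m)) - 3 / 2 * (n ^ 2 / m ^ 2) := rfl
  rw [a0, a1, a2, a3, a4', a5, a6]
  unfold O3f E2f
  set S := sin (n * ω * t)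
  set S3 := sin (3 * n * ω * t)
  set Sp := sin ((n + m) * ω * t)
  set Sm := sin ((n - m) * ω * t)
  set C2 := cos (2 * n * ω * t)
  set C4 := cos (4 * n * ω * t)
  set Cm := cos (m * ω * t)
  set C2m := cos (2 * m * ω * t)
  set Cp := cos ((2 * n + m) * ω * t)
  set Cn := cos ((2 * n - m) * ω * t)
  have hal : -(4 * n ^ 2 - m ^ 2) / (4 * m ^ 2) = -((4 * n ^ 2 - m ^ 2) / (4 * m ^ 2)) := by ring
  rw [hal]
  set al := (4 * n ^ 2 - m ^ 2) / (4 * m ^ 2)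
  set ga := n ^ 2 / m ^ 2
  set U := U3 n m
  set Vp := V3 n m
  set Vm := V3 n (-m)
  have h4 : B ^ 4 = B * B ^ 3 := by ring
  linear_combination (6 * B ^ 4 * (-(1 / 16))) * s1 + (6 * B ^ 4 * U) * s2 + (6 * B ^ 4 * Vp) * s3 +
    (6 * B ^ 4 * Vm) * s4 + (3 * B ^ 4 * (-al - 1 / 4 * C2 + ga * Cm)) * s2 +
    (3 / 8 * B ^ 4 + 3 / 16 * B ^ 4) * c1 + (-(3 / 2) * ga * B ^ 4 - 3 / 2 * ga * B ^ 4) * c2 +
    (3 * ga ^ 2 * B ^ 4) * c3

end Phi4
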