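import Pool.Agent.Helper64.PhiLev2

/-! The value of level 4 at `t = 0`. -/

set_option autoImplicit false

namespace Phi4

open Real

/-- the rational identity of level 4 -/
theorem level4_rational {n m : ℝ} (hm : 0 < m) (hmn : m < n) (h5 : 4 * n ≠ 5 * m)
    (h4 : 4 * n ^ 2 - 5 * m ^ 2 ≠ 0) :
    a4 n m 0 / (4 * n ^ 2 - 5 * m ^ 2) + a4 n m 1 / (8 * n ^ 2 - 5 * m ^ 2) +
      a4 n m 2 / (5 * ((2 * n - m) * (2 * n + m))) + a4 n m 3 / (4 * ((n - m) * (n + m))) +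
      a4 n m 4 / ((2 * n - m) * (2 * n + m)) + a4 n m 5 / (4 * ((2 * n - m) * (n + m))) +
      a4 n m 6 / (4 * ((2 * n + m) * (n - m))) =
    -(15 / 4) * n ^ 4 * (4 * n ^ 2 - 13 * m ^ 2) /
      (((2 * n - m) * (2 * n + m)) * ((n - m) * (n + m)) * (4 * n ^ 2 - 5 * m ^ 2) *
        ((4 * n - 5 * m) * (4 * n + 5 * m))) := by
  have hn : 0 < n := hm.trans hmn
  have g1 : n - m ≠ 0 := (sub_pos.2 hmn).ne'
  have g2 : n + m ≠ 0 := by positivity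
  have g3 : 2 * n - m ≠ 0 := by
    have : 0 < 2 * n - m := by linarith
    exact this.ne'
  have g4 : 2 * n + m ≠ 0 := by positivity
  have g5 : 4 * n + 5 * m ≠ 0 := by positivity
  have g6 : 4 * n - 5 * m ≠ 0 := sub_ne_zero.2 h5
  have g7 : m ≠ 0 := hm.ne'
  have g8 : 8 * n ^ 2 - 5 * m ^ 2 ≠ 0 := by
    have : 0 < 8 * n ^ 2 - 5 * m ^ 2 := by nlinarith
    exact this.ne'
  have eU : U3 n m = -(3 * ((2 * n - m) * (2 * n + m)) * (2 * n ^ 2 - m ^ 2)) /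
      (16 * m ^ 2 * ((n - m) * (n + m))) := by
    unfold U3; congr 1 <;> ring
  have eV : V3 n (-m) = 3 * n ^ 2 * (2 * n - m) / (2 * m ^ 2 * (4 * n - 5 * m)) := by
    unfold V3; congr 1 <;> ring
  have eV' : V3 n m = 3 * n ^ 2 * (2 * n + m) / (2 * m ^ 2 * (4 * n + 5 * m)) := rfl
  have eN : 4 * n ^ 2 - m ^ 2 = (2 * n - m) * (2 * n + m) := by ring
  have a0 : a4 n m 0 = 3 * U3 n m + 3 / 2 * (-(4 * n ^ 2 - m ^ 2) / (4 * m ^ 2) + 1 / 8) +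
    3 * ((-(4 * n ^ 2 - m ^ 2) / (4 * m ^ 2)) ^ 2 + 1 / 32 + (n ^ 2 / m ^ 2) ^ 2 / 2) := rfl
  have a1 : a4 n m 1 = -(3 / 16) - 3 * U3 n m + 3 / 2 * (-(1 / 4) + (4 * n ^ 2 - m ^ 2) / (4 * m ^ 2)) +
    3 / 2 * ((4 * n ^ 2 - m ^ 2) / (4 * m ^ 2)) := rfl
  have a2 : a4 n m 2 = 15 / 32 := rfl
  have a3 : a4 n m 3 = 3 * (V3 n m + V3 n (-m)) + 3 / 2 * (n ^ 2 / m ^ 2) -
    6 * ((4 * n ^ 2 - m ^ 2) / (4 * m ^ 2)) * (n ^ 2 / m ^ 2) := rfl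
  have a4' : a4 n m 4 = 3 / 2 * (n ^ 2 / m ^ 2) ^ 2 := rfl
  have a5 : a4 n m 5 = -(3 * V3 n m) - 3 / 2 * (n ^ 2 / m ^ 2) := rfl
  have a6 : a4 n m 6 = -(3 * V3 n (-m)) - 3 / 2 * (n ^ 2 / m ^ 2) := rfl
  rw [a0, a1, a2, a3, a4', a5, a6, eU, eV, eV', eN]
  obtain ⟨D0, hD0⟩ : ∃ D, D = 4 * n ^ 2 - 5 * m ^ 2 := ⟨_, rfl⟩
  obtain ⟨D1, hD1⟩ : ∃ D, D = 8 * n ^ 2 - 5 * m ^ 2 := ⟨_, rfl⟩
  obtain ⟨L1, hL1⟩ : ∃ D, D = 4 * n - 5 * m := ⟨_, rfl⟩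
  obtain ⟨L2, hL2⟩ : ∃ D, D = 4 * n + 5 * m := ⟨_, rfl⟩
  obtain ⟨P1, hP1⟩ : ∃ D, D = 2 * n - m := ⟨_, rfl⟩
  obtain ⟨P2, hP2⟩ : ∃ D, D = 2 * n + m := ⟨_, rfl⟩
  obtain ⟨Q1, hQ1⟩ : ∃ D, D = n - m := ⟨_, rfl⟩
  obtain ⟨Q2, hQ2⟩ : ∃ D, D = n + m := ⟨_, rfl⟩
  rw [← hD0] at h4 ⊢
  rw [← hD1] at g8 ⊢
  rw [← hL1] at g6 ⊢
  rw [← hL2] at g5 ⊢
  rw [← hP1] at g3 ⊢
  rw [← hP2] at g4 ⊢
  rw [← hQ1] at g1 ⊢
  rw [← hQ2] at g2 ⊢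
  field_simp
  rw [hD0, hD1, hL1, hL2, hP1, hP2, hQ1, hQ2]
  ring

/-- `13` is not a rational square -/
theorem thirteen_ne {n m : ℕ} (hm : 1 ≤ m) : 4 * (n : ℝ) ^ 2 - 13 * (m : ℝ) ^ 2 ≠ 0 := by
  intro h
  have hi : Irrational √((13 : ℕ) : ℝ) := Nat.Prime.irrational_sqrt (by norm_num)
  apply hi
  refine ⟨2 * (n : ℚ) / m, ?_⟩
  have hm0 : (0 : ℝ) < m := by exact_mod_cast hm
  symm
  rw [Real.sqrt_eq_iff_mul_self_eq (by positivity) (by push_cast; positivity)]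
  push_cast
  field_simp
  linarith

/-- five is not a rational square -/
theorem five_ne {n m : ℕ} (hm : 1 ≤ m) : 4 * (n : ℝ) ^ 2 - 5 * (m : ℝ) ^ 2 ≠ 0 := by
  intro h
  have hi : Irrational √((5 : ℕ) : ℝ) := Nat.Prime.irrational_sqrt (by norm_num)
  apply hi
  refine ⟨2 * (n : ℚ) / m, ?_⟩
  have hm0 : (0 : ℝ) < m := by exact_mod_cast hm
  symm
  rw [Real.sqrt_eq_iff_mul_self_eq (by positivity) (by push_cast; positivity)]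
  push_cast
  field_simp
  linarith

/-- the condition at level 4: if `4 lam` is not resonant, the amplitude vanishes -/
theorem level4_false {T : ℝ} (hT : 0 < T) {n m : ℕ} (hm : 1 ≤ m) (hmn : m < n) {B lam ω : ℝ}
    (hω : ω = 2 * π / T) (hB : B ≠ 0)
    (hN : ω ^ 2 * (4 * (n : ℝ) ^ 2 - (m : ℝ) ^ 2) = 6) (hl : lam ^ 2 = 2 - (n : ℝ) ^ 2 * ω ^ 2)
    (h5 : 4 * n ≠ 5 * m) (hS : ∀ k : ℕ, 5 * m ^ 2 ≠ 4 * n ^ 2 + k ^ 2) {E E1 : ℝ → ℝ}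
    (hE : ∀ t, HasDerivAt E (E1 t) t)
    (hE1 : ∀ t, HasDerivAt E1 (((4 * lam) ^ 2 - 2) * E t -
      (6 * (B * sin (n * ω * t)) * O3f B n m ω t + 3 * (B * sin (n * ω * t)) ^ 2 * E2f B n m ω t +
        3 * E2f B n m ω t ^ 2)) t)
    (h0 : E 0 = 0) (h1 : E1 0 = 0) (hET : E T = 0) : False := by
  have hm0 : (0 : ℝ) < m := by exact_mod_cast hm
  have hmn0 : (m : ℝ) < n := by exact_mod_cast hmn
  have hn0 : (0 : ℝ) < n := hm0.trans hmn0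
  have hN0 : 0 < 4 * (n : ℝ) ^ 2 - (m : ℝ) ^ 2 := by nlinarith
  have h5' : 4 * (n : ℝ) ≠ 5 * m := by exact_mod_cast h5
  have h4' := five_ne (n := n) hm
  set q := (4 * lam) ^ 2 - 2 with hq
  have hqN : q * (4 * (n : ℝ) ^ 2 - (m : ℝ) ^ 2) = 6 * (4 * (n : ℝ) ^ 2 - 5 * (m : ℝ) ^ 2) := by
    rw [hq]
    linear_combination 16 * (4 * (n : ℝ) ^ 2 - (m : ℝ) ^ 2) * hl - 16 * (n : ℝ) ^ 2 * hN
  have hqf : ∀ f : ℝ, q + (f * ω) ^ 2 = 6 * (4 * (n : ℝ) ^ 2 - 5 * (m : ℝ) ^ 2 + f ^ 2) /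
      (4 * (n : ℝ) ^ 2 - (m : ℝ) ^ 2) := by
    intro f
    rw [eq_div_iff hN0.ne']
    linear_combination hqN + f ^ 2 * hN
  have hωT : ω * T = 2 * π := by rw [hω]; field_simp
  have hint : ∀ z : ℤ, cos ((z : ℝ) * ω * T) = 1 := by
    intro z
    have : (z : ℝ) * ω * T = z * (2 * π) := by rw [mul_assoc, hωT]
    rw [this]; exact cos_int_mul_two_pi z
  have hfint : ∀ i : Fin 7, ∃ z : ℤ, f4 (n : ℝ) m i = z := by
    intro i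
    fin_cases i
    · exact ⟨0, by simp [f4]⟩
    · exact ⟨2 * n, by simp [f4]⟩
    · exact ⟨4 * n, by simp [f4]⟩
    · exact ⟨m, by simp [f4]⟩
    · exact ⟨2 * m, by simp [f4]⟩
    · exact ⟨2 * n + m, by simp [f4]⟩
    · exact ⟨2 * n - m, by simp [f4]⟩
  have key := lv_level (ι := Fin 7) (q := q) hT (s := Finset.univ) (a := fun i => B ^ 4 * a4 n m i)
    (f := fun i => f4 n m i * ω) hE (by
      intro t
      rw [← level4_source B n m ω t hm0.ne']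
      exact hE1 t) h0 h1 hET
    (by
      intro i _
      obtain ⟨z, hz⟩ := hfint i
      beta_reduce
      rw [hz]; exact hint z)
    (by
      intro i _
      beta_reduce
      rw [hqf]
      apply div_ne_zero _ hN0.ne'
      apply mul_ne_zero (by norm_num)
      fin_cases i
      · simpa [f4] using h4'
      · have : 0 < 4 * (n : ℝ) ^ 2 - 5 * (m : ℝ) ^ 2 + (2 * (n : ℝ)) ^ 2 := by nlinarith
        simpa [f4] using this.ne'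
      · have : 0 < 4 * (n : ℝ) ^ 2 - 5 * (m : ℝ) ^ 2 + (4 * (n : ℝ)) ^ 2 := by nlinarith
        simpa [f4] using this.ne'
      · have : 0 < 4 * (n : ℝ) ^ 2 - 5 * (m : ℝ) ^ 2 + (m : ℝ) ^ 2 := by nlinarith
        simpa [f4] using this.ne'
      · have : 0 < 4 * (n : ℝ) ^ 2 - 5 * (m : ℝ) ^ 2 + (2 * (m : ℝ)) ^ 2 := by nlinarith
        simpa [f4] using this.ne'
      · have : 0 < 4 * (n : ℝ) ^ 2 - 5 * (m : ℝ) ^ 2 + (2 * (n : ℝ) + m) ^ 2 := by nlinarith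
        simpa [f4] using this.ne'
      · have : 0 < 4 * (n : ℝ) ^ 2 - 5 * (m : ℝ) ^ 2 + (2 * (n : ℝ) - m) ^ 2 := by nlinarith
        simpa [f4] using this.ne')
    (by
      intro k hk
      have hom : om T k = k * ω := by rw [hω]; rfl
      rw [hom] at hk
      apply hS k
      have e1 : 6 * (4 * (n : ℝ) ^ 2 - 5 * (m : ℝ) ^ 2) = -(6 * (k : ℝ) ^ 2) := by
        rw [← hqN, hk]
        linear_combination (-(k : ℝ) ^ 2) * hN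
      have e2 : 5 * (m : ℝ) ^ 2 = 4 * (n : ℝ) ^ 2 + (k : ℝ) ^ 2 := by linarith
      exact_mod_cast e2)
  -- the sum
  have hsum : ∑ i : Fin 7, (B ^ 4 * a4 n m i) / (q + (f4 n m i * ω) ^ 2) =
      B ^ 4 * ((4 * (n : ℝ) ^ 2 - (m : ℝ) ^ 2) / 6) *
        (-(15 / 4) * (n : ℝ) ^ 4 * (4 * (n : ℝ) ^ 2 - 13 * (m : ℝ) ^ 2) /
      (((2 * (n : ℝ) - m) * (2 * n + m)) * (((n : ℝ) - m) * (n + m)) * (4 * (n : ℝ) ^ 2 - 5 * (m : ℝ) ^ 2) *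
        ((4 * (n : ℝ) - 5 * m) * (4 * n + 5 * m)))) := by
    rw [← level4_rational hm0 hmn0 h5' h4', Fin.sum_univ_seven]
    have b0 : f4 (n : ℝ) m 0 = 0 := rfl
    have b1 : f4 (n : ℝ) m 1 = 2 * n := rfl
    have b2 : f4 (n : ℝ) m 2 = 4 * n := rfl
    have b3 : f4 (n : ℝ) m 3 = m := rfl
    have b4 : f4 (n : ℝ) m 4 = 2 * m := rfl
    have b5 : f4 (n : ℝ) m 5 = 2 * n + m := rfl
    have b6 : f4 (n : ℝ) m 6 = 2 * n - m := rfl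
    rw [b0, b1, b2, b3, b4, b5, b6]
    simp only [hqf]
    have d0 : 4 * (n : ℝ) ^ 2 - 5 * (m : ℝ) ^ 2 + (0 : ℝ) ^ 2 = 4 * (n : ℝ) ^ 2 - 5 * (m : ℝ) ^ 2 := by ring
    have d1 : 4 * (n : ℝ) ^ 2 - 5 * (m : ℝ) ^ 2 + (2 * (n : ℝ)) ^ 2 = 8 * (n : ℝ) ^ 2 - 5 * (m : ℝ) ^ 2 := by ring
    have d2 : 4 * (n : ℝ) ^ 2 - 5 * (m : ℝ) ^ 2 + (4 * (n : ℝ)) ^ 2 =
      5 * ((2 * (n : ℝ) - m) * (2 * n + m)) := by ring
    have d3 : 4 * (n : ℝ) ^ 2 - 5 * (m : ℝ) ^ 2 + (m : ℝ) ^ 2 = 4 * (((n : ℝ) - m) * (n + m)) := by ring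
    have d4 : 4 * (n : ℝ) ^ 2 - 5 * (m : ℝ) ^ 2 + (2 * (m : ℝ)) ^ 2 = (2 * (n : ℝ) - m) * (2 * n + m) := by ring
    have d5 : 4 * (n : ℝ) ^ 2 - 5 * (m : ℝ) ^ 2 + (2 * (n : ℝ) + m) ^ 2 =
      4 * ((2 * (n : ℝ) - m) * (n + m)) := by ring
    have d6 : 4 * (n : ℝ) ^ 2 - 5 * (m : ℝ) ^ 2 + (2 * (n : ℝ) - m) ^ 2 =
      4 * ((2 * (n : ℝ) + m) * (n - m)) := by ring
    rw [d0, d1, d2, d3, d4, d5, d6]
    have hh : ∀ a N D : ℝ, B ^ 4 * a / (6 * D / N) = B ^ 4 * (N / 6) * (a / D) := by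
      intro a N D
      rw [div_div_eq_mul_div, mul_div_mul_comm]
      ring
    simp only [hh]
    ring
  rw [hsum] at key
  have hne : B ^ 4 * ((4 * (n : ℝ) ^ 2 - (m : ℝ) ^ 2) / 6) *
        (-(15 / 4) * (n : ℝ) ^ 4 * (4 * (n : ℝ) ^ 2 - 13 * (m : ℝ) ^ 2) /
      (((2 * (n : ℝ) - m) * (2 * n + m)) * (((n : ℝ) - m) * (n + m)) * (4 * (n : ℝ) ^ 2 - 5 * (m : ℝ) ^ 2) *
        ((4 * (n : ℝ) - 5 * m) * (4 * n + 5 * m)))) ≠ 0 := by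
    have t1 : 2 * (n : ℝ) - m ≠ 0 := by
      have : 0 < 2 * (n : ℝ) - m := by linarith
      exact this.ne'
    have t2 : 2 * (n : ℝ) + m ≠ 0 := by positivity
    have t3 : (n : ℝ) - m ≠ 0 := (sub_pos.2 hmn0).ne'
    have t4 : (n : ℝ) + m ≠ 0 := by positivity
    have t5 : 4 * (n : ℝ) - 5 * m ≠ 0 := sub_ne_zero.2 h5'
    have t6 : 4 * (n : ℝ) + 5 * m ≠ 0 := by positivity
    have t7 := thirteen_ne (n := n) hm
    refine mul_ne_zero (mul_ne_zero (pow_ne_zero 4 hB) (div_ne_zero hN0.ne' (by norm_num))) ?_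
    refine div_ne_zero (mul_ne_zero (mul_ne_zero (by norm_num) (pow_ne_zero 4 hn0.ne')) t7) ?_
    exact mul_ne_zero (mul_ne_zero (mul_ne_zero (mul_ne_zero t1 t2) (mul_ne_zero t3 t4)) h4')
      (mul_ne_zero t5 t6)
  exact hne key

end Phi4
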