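import Pool.Agent.Helper88.PhiG

/-! Explicit level functions of the phi^4 expansion around the state `1`. -/

set_option autoImplicit false

namespace Phi4

open Real

/-! ### products of sines and cosines -/

theorem lv_ss (a b : ℝ) : sin a * sin b = (cos (a - b) - cos (a + b)) / 2 := by
  rw [cos_sub, cos_add]; ring

theorem lv_cc (a b : ℝ) : cos a * cos b = (cos (a - b) + cos (a + b)) / 2 := by
  rw [cos_sub, cos_add]; ring

theorem lv_sc (a b : ℝ) : sin a * cos b = (sin (a - b) + sin (a + b)) / 2 := by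
  rw [sin_sub, sin_add]; ring

/-! ### the solution of `C'' = q C`, `C(0) = 1`, `C'(0) = 0` -/

/-- the solution of `C'' = q C`, `C(0) = 1`, `C'(0) = 0` -/
noncomputable def Cq (q t : ℝ) : ℝ := if q < 0 then cos (√(-q) * t) else cosh (√q * t)
/-- the derivative of `Cq` -/
noncomputable def Cq1 (q t : ℝ) : ℝ := if q < 0 then -√(-q) * sin (√(-q) * t) else √q * sinh (√q * t)

theorem Cq_zero (q : ℝ) : Cq q 0 = 1 := by unfold Cq; split_ifs <;> simp
theorem Cq1_zero (q : ℝ) : Cq1 q 0 = 0 := by unfold Cq1; split_ifs <;> simp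

theorem hasDerivAt_Cq (q t : ℝ) : HasDerivAt (Cq q) (Cq1 q t) t := by
  by_cases h : q < 0
  · have e : Cq q = fun t => cos (√(-q) * t) := by funext t; unfold Cq; rw [if_pos h]
    rw [e]; unfold Cq1; rw [if_pos h]
    exact hasDerivAt_cos_om _ t
  · have e : Cq q = fun t => cosh (√q * t) := by funext t; unfold Cq; rw [if_neg h]
    rw [e]; unfold Cq1; rw [if_neg h]
    have h1 : HasDerivAt (fun r : ℝ => √q * r) (√q) t := by simpa using (hasDerivAt_id t).const_mul (√q)
    exact (h1.cosh).congr_deriv (by ring)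

theorem hasDerivAt_Cq1 (q t : ℝ) : HasDerivAt (Cq1 q) (q * Cq q t) t := by
  by_cases h : q < 0
  · have e : Cq1 q = fun t => -√(-q) * sin (√(-q) * t) := by funext t; unfold Cq1; rw [if_pos h]
    rw [e]; unfold Cq; rw [if_pos h]
    have hs : √(-q) * √(-q) = -q := mul_self_sqrt (by linarith)
    refine ((hasDerivAt_sin_om (√(-q)) t).const_mul (-√(-q))).congr_deriv ?_
    linear_combination (-cos (√(-q) * t)) * hs
  · have e : Cq1 q = fun t => √q * sinh (√q * t) := by funext t; unfold Cq1; rw [if_neg h]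
    rw [e]; unfold Cq; rw [if_neg h]
    have hs : √q * √q = q := mul_self_sqrt (by linarith)
    have h1 : HasDerivAt (fun r : ℝ => √q * r) (√q) t := by simpa using (hasDerivAt_id t).const_mul (√q)
    refine ((h1.sinh).const_mul (√q)).congr_deriv ?_
    linear_combination (cosh (√q * t)) * hs

/-- `C(T) = 1` only at the resonances -/
theorem Cq_eq_one {T q : ℝ} (hT : 0 < T) (h : Cq q T = 1) : ∃ k : ℕ, q = -(om T k) ^ 2 := by
  unfold Cq at h
  split_ifs at h with hq
  · have hs : √(-q) * √(-q) = -q := mul_self_sqrt (by linarith)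
    have hpos : 0 < √(-q) := sqrt_pos.2 (by linarith)
    obtain ⟨k, hk⟩ := (cos_eq_one_iff _).1 h
    have hk0 : 0 ≤ (k : ℝ) := by
      by_contra hcon
      push Not at hcon
      have h1 : (k : ℝ) * (2 * π) < 0 := mul_neg_of_neg_of_pos hcon (by positivity)
      have h2 : 0 < √(-q) * T := by positivity
      linarith
    have hk0' : 0 ≤ k := by exact_mod_cast hk0
    obtain ⟨l, rfl⟩ := Int.eq_ofNat_of_zero_le hk0'
    refine ⟨l, ?_⟩
    have e : om T l = √(-q) := by
      unfold om
      have : (l : ℝ) * (2 * π) = √(-q) * T := by exact_mod_cast hk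
      field_simp
      linarith
    rw [e, sq, hs]; ring
  · refine ⟨0, ?_⟩
    have h1 : √q * T = 0 := by
      by_contra hcon
      have := one_lt_cosh.2 hcon
      linarith
    have h2 : √q = 0 := by
      rcases mul_eq_zero.1 h1 with h | h
      · exact h
      · exact absurd h hT.ne'
    have h3 : q ≤ 0 := by
      by_contra hcon
      push Not at hcon
      have := sqrt_pos.2 hcon
      linarith
    have h4 : q = 0 := le_antisymm h3 (not_lt.1 hq)
    rw [h4]; unfold om; simp

/-! ### cosine and sine polynomials -/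

section poly
variable {ι : Type*}

/-- finite cosine sum with frequencies `f i` -/
noncomputable def cosP (s : Finset ι) (a f : ι → ℝ) (t : ℝ) : ℝ := ∑ i ∈ s, a i * cos (f i * t)
/-- its derivative -/
noncomputable def cosP1 (s : Finset ι) (a f : ι → ℝ) (t : ℝ) : ℝ := ∑ i ∈ s, a i * (-f i * sin (f i * t))

theorem hasDerivAt_cosP (s : Finset ι) (a f : ι → ℝ) (t : ℝ) :
    HasDerivAt (cosP s a f) (cosP1 s a f t) t := by
  unfold cosP cosP1
  apply HasDerivAt.fun_sum
  intro i _
  exact (hasDerivAt_cos_om _ t).const_mul _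

/-- the particular solution of `E'' = q E - F`, `F` a cosine sum -/
theorem hasDerivAt_cosP1 (s : Finset ι) (a f : ι → ℝ) (q : ℝ) (hq : ∀ i ∈ s, q + f i ^ 2 ≠ 0) (t : ℝ) :
    HasDerivAt (cosP1 s (fun i => a i / (q + f i ^ 2)) f)
      (q * cosP s (fun i => a i / (q + f i ^ 2)) f t - cosP s a f t) t := by
  have h : HasDerivAt (cosP1 s (fun i => a i / (q + f i ^ 2)) f)
      (∑ i ∈ s, (a i / (q + f i ^ 2)) * (-f i * (f i * cos (f i * t)))) t := by
    unfold cosP1
    apply HasDerivAt.fun_sum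
    intro i _
    exact ((hasDerivAt_sin_om (f i) t).const_mul (-f i)).const_mul _
  refine h.congr_deriv ?_
  unfold cosP
  rw [Finset.mul_sum, ← Finset.sum_sub_distrib]
  apply Finset.sum_congr rfl
  intro i hi
  have := hq i hi
  field_simp
  ring

theorem cosP_zero (s : Finset ι) (a f : ι → ℝ) : cosP s a f 0 = ∑ i ∈ s, a i := by
  unfold cosP; simp

theorem cosP1_zero (s : Finset ι) (a f : ι → ℝ) : cosP1 s a f 0 = 0 := by
  unfold cosP1; simp

theorem cosP_T {T : ℝ} (s : Finset ι) (a f : ι → ℝ) (hf : ∀ i ∈ s, cos (f i * T) = 1) :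
    cosP s a f T = ∑ i ∈ s, a i := by
  unfold cosP
  apply Finset.sum_congr rfl
  intro i hi
  rw [hf i hi, mul_one]

end poly

/-- the solution of `D'' = q D`, `D(0) = D'(0) = 0` is zero -/
theorem lv_unique {q : ℝ} {D D1 : ℝ → ℝ} (hD : ∀ t, HasDerivAt D (D1 t) t)
    (hD1 : ∀ t, HasDerivAt D1 (q * D t) t) (h0 : D 0 = 0) (h1 : D1 0 = 0) : ∀ t, D t = 0 := by
  -- a bound for the energy `D^2 + D1^2`
  intro t
  have key : ∀ t, HasDerivAt (fun t => (D t ^ 2 + D1 t ^ 2) * exp (-(1 + |q|) * t))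
      ((2 * (1 + q) * D t * D1 t - (1 + |q|) * (D t ^ 2 + D1 t ^ 2)) * exp (-(1 + |q|) * t)) t := by
    intro t
    have e1 := ((hD t).pow 2).add ((hD1 t).pow 2)
    have e2 : HasDerivAt (fun t => exp (-(1 + |q|) * t)) (exp (-(1 + |q|) * t) * (-(1 + |q|))) t := by
      have : HasDerivAt (fun t : ℝ => -(1 + |q|) * t) (-(1 + |q|)) t := by
        simpa using (hasDerivAt_id t).const_mul (-(1 + |q|))
      exact this.exp
    refine (e1.mul e2).congr_deriv ?_
    simp
    ring
  have key' : ∀ t, HasDerivAt (fun t => (D t ^ 2 + D1 t ^ 2) * exp ((1 + |q|) * t))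
      ((2 * (1 + q) * D t * D1 t + (1 + |q|) * (D t ^ 2 + D1 t ^ 2)) * exp ((1 + |q|) * t)) t := by
    intro t
    have e1 := ((hD t).pow 2).add ((hD1 t).pow 2)
    have e2 : HasDerivAt (fun t => exp ((1 + |q|) * t)) (exp ((1 + |q|) * t) * (1 + |q|)) t := by
      have : HasDerivAt (fun t : ℝ => (1 + |q|) * t) (1 + |q|) t := by
        simpa using (hasDerivAt_id t).const_mul (1 + |q|)
      exact this.exp
    refine (e1.mul e2).congr_deriv ?_
    simp
    ring
  have hb : ∀ t, |2 * (1 + q) * D t * D1 t| ≤ (1 + |q|) * (D t ^ 2 + D1 t ^ 2) := by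
    intro t
    have h2 : |1 + q| ≤ 1 + |q| := by
      refine (abs_add_le _ _).trans ?_
      simp
    have h3 : 2 * (|D t| * |D1 t|) ≤ D t ^ 2 + D1 t ^ 2 := by
      have := sq_nonneg (|D t| - |D1 t|)
      rw [sub_sq, sq_abs, sq_abs] at this
      linarith
    calc |2 * (1 + q) * D t * D1 t| = |1 + q| * (2 * (|D t| * |D1 t|)) := by
          rw [abs_mul, abs_mul, abs_mul, abs_of_pos (by norm_num : (0:ℝ) < 2)]; ring
      _ ≤ (1 + |q|) * (D t ^ 2 + D1 t ^ 2) := by
          apply mul_le_mul h2 h3 (by positivity) (by positivity)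
  have z : ∀ t, (D t ^ 2 + D1 t ^ 2) ≤ 0 := by
    intro t
    rcases le_total 0 t with ht | ht
    · have hanti : AntitoneOn (fun t => (D t ^ 2 + D1 t ^ 2) * exp (-(1 + |q|) * t)) (Set.Icc 0 t) := by
        apply antitoneOn_of_deriv_nonpos (convex_Icc 0 t)
        · exact fun y _ => (key y).continuousAt.continuousWithinAt
        · exact fun y _ => (key y).differentiableAt.differentiableWithinAt
        · intro y _
          rw [(key y).deriv]
          have := (abs_le.1 (hb y)).2
          exact mul_nonpos_of_nonpos_of_nonneg (by linarith) (exp_pos _).le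
      have h2 := hanti (Set.left_mem_Icc.2 ht) (Set.right_mem_Icc.2 ht) ht
      simp only [h0, h1] at h2
      have h3 : (D t ^ 2 + D1 t ^ 2) * exp (-(1 + |q|) * t) ≤ 0 := by simpa using h2
      by_contra hcon
      push Not at hcon
      have := mul_pos hcon (exp_pos (-(1 + |q|) * t))
      linarith
    · have hmono : MonotoneOn (fun t => (D t ^ 2 + D1 t ^ 2) * exp ((1 + |q|) * t)) (Set.Icc t 0) := by
        apply monotoneOn_of_deriv_nonneg (convex_Icc t 0)
        · exact fun y _ => (key' y).continuousAt.continuousWithinAt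
        · exact fun y _ => (key' y).differentiableAt.differentiableWithinAt
        · intro y _
          rw [(key' y).deriv]
          have := (abs_le.1 (hb y)).1
          exact mul_nonneg (by linarith) (exp_pos _).le
      have h2 := hmono (Set.left_mem_Icc.2 ht) (Set.right_mem_Icc.2 ht) ht
      simp only [h0, h1] at h2
      have h3 : (D t ^ 2 + D1 t ^ 2) * exp ((1 + |q|) * t) ≤ 0 := by simpa using h2
      by_contra hcon
      push Not at hcon
      have := mul_pos hcon (exp_pos ((1 + |q|) * t))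
      linarith
  have := z t
  have h2 : D t ^ 2 = 0 := le_antisymm (by linarith [sq_nonneg (D1 t)]) (sq_nonneg _)
  exact pow_eq_zero_iff (two_ne_zero) |>.1 h2

/-- the periodicity condition at a nonresonant level -/
theorem lv_level {ι : Type*} {T q : ℝ} (hT : 0 < T) {s : Finset ι} {a f : ι → ℝ} {E E1 : ℝ → ℝ}
    (hE : ∀ t, HasDerivAt E (E1 t) t) (hE1 : ∀ t, HasDerivAt E1 (q * E t - cosP s a f t) t)
    (h0 : E 0 = 0) (h1 : E1 0 = 0) (hET : E T = 0) (hf : ∀ i ∈ s, cos (f i * T) = 1)
    (hqf : ∀ i ∈ s, q + f i ^ 2 ≠ 0) (hq : ∀ k : ℕ, q ≠ -(om T k) ^ 2) :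
    ∑ i ∈ s, a i / (q + f i ^ 2) = 0 := by
  set b : ι → ℝ := fun i => a i / (q + f i ^ 2) with hb
  set p0 := ∑ i ∈ s, b i with hp0
  have hz : ∀ t, E t - (cosP s b f t - p0 * Cq q t) = 0 := by
    apply lv_unique (q := q) (D := fun t => E t - (cosP s b f t - p0 * Cq q t))
      (D1 := fun t => E1 t - (cosP1 s b f t - p0 * Cq1 q t))
    · intro t
      exact (hE t).sub ((hasDerivAt_cosP s b f t).sub ((hasDerivAt_Cq q t).const_mul p0))
    · intro t
      have e := (hE1 t).sub ((hasDerivAt_cosP1 s a f q hqf t).sub ((hasDerivAt_Cq1 q t).const_mul p0))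
      refine e.congr_deriv ?_
      rw [← hb]; ring
    · rw [h0, cosP_zero, Cq_zero]; ring
    · rw [h1, cosP1_zero, Cq1_zero]; ring
  have h2 := hz T
  rw [hET, cosP_T s b f hf, ← hp0] at h2
  have h3 : p0 * (1 - Cq q T) = 0 := by linarith
  rcases mul_eq_zero.1 h3 with h | h
  · exact h
  · exfalso
    obtain ⟨k, hk⟩ := Cq_eq_one hT (by linarith : Cq q T = 1)
    exact hq k hk

end Phi4
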