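import Pool.Agent.Helper64.PhiLev

/-! The pair condition at a nonresonant level, and existence of the level functions. -/

set_option autoImplicit false

namespace Phi4

open Real

/-- a nonresonant level with the single source `c sin (om i t) sin (om j t)` -/
theorem pair_false {T : ℝ} (hT : 0 < T) {i j : ℕ} (hi : 1 ≤ i) (hj : 1 ≤ j) {q c : ℝ} (hc : c ≠ 0)
    (hq : ∀ k : ℕ, q ≠ -(om T k) ^ 2) {E E1 : ℝ → ℝ} (hE : ∀ t, HasDerivAt E (E1 t) t)
    (hE1 : ∀ t, HasDerivAt E1 (q * E t - c * sin (om T i * t) * sin (om T j * t)) t)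
    (h0 : E 0 = 0) (h1 : E1 0 = 0) (hET : E T = 0) : False := by
  have ho : ∀ l : ℕ, 1 ≤ l → 0 < om T l := by
    intro l hl
    unfold om
    have : (1 : ℝ) ≤ l := by exact_mod_cast hl
    positivity
  have hd : ∃ k : ℕ, (om T i - om T j) ^ 2 = om T k ^ 2 := by
    rcases le_total i j with h | h
    · refine ⟨j - i, ?_⟩
      unfold om
      rw [Nat.cast_sub h]; ring
    · refine ⟨i - j, ?_⟩
      unfold om
      rw [Nat.cast_sub h]; ring
  have hs : (om T i + om T j) ^ 2 = om T (i + j) ^ 2 := by
    unfold om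
    push_cast; ring
  have q0 : q + (om T i - om T j) ^ 2 ≠ 0 := by
    obtain ⟨k, hk⟩ := hd
    rw [hk]
    intro h
    exact hq k (by linarith)
  have q1 : q + (om T i + om T j) ^ 2 ≠ 0 := by
    rw [hs]
    intro h
    exact hq (i + j) (by linarith)
  have key := lv_level (ι := Fin 2) (q := q) hT (s := Finset.univ) (a := ![c / 2, -(c / 2)])
    (f := ![om T i - om T j, om T i + om T j]) hE (by
      intro t
      have e : cosP Finset.univ ![c / 2, -(c / 2)] ![om T i - om T j, om T i + om T j] t =
          c * sin (om T i * t) * sin (om T j * t) := by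
        unfold cosP
        rw [Fin.sum_univ_two, mul_assoc, lv_ss]
        simp only [Matrix.cons_val_zero, Matrix.cons_val_one]
        rw [sub_mul, add_mul]; ring
      rw [e]; exact hE1 t) h0 h1 hET
    (by
      intro l _
      fin_cases l
      · simp only [Fin.zero_eta, Matrix.cons_val_zero]
        rw [sub_mul, cos_sub, cos_om_T hT, cos_om_T hT, sin_om_T hT, sin_om_T hT]; ring
      · change cos ((om T i + om T j) * T) = 1
        rw [add_mul, cos_add, cos_om_T hT, cos_om_T hT, sin_om_T hT, sin_om_T hT]; ring)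
    (by
      intro l _
      fin_cases l
      · simpa using q0
      · simpa using q1) hq
  rw [Fin.sum_univ_two] at key
  simp only [Matrix.cons_val_zero, Matrix.cons_val_one] at key
  have e : c / 2 / (q + (om T i - om T j) ^ 2) + -(c / 2) / (q + (om T i + om T j) ^ 2) =
      2 * c * om T i * om T j / ((q + (om T i - om T j) ^ 2) * (q + (om T i + om T j) ^ 2)) := by
    generalize hA : q + (om T i - om T j) ^ 2 = A at q0
    generalize hB : q + (om T i + om T j) ^ 2 = B at q1
    have hAB : B - A = 4 * om T i * om T j := by rw [← hA, ← hB]; ring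
    field_simp
    linear_combination hAB
  rw [e] at key
  have := ho i hi
  have := ho j hj
  have hne : 2 * c * om T i * om T j / ((q + (om T i - om T j) ^ 2) * (q + (om T i + om T j) ^ 2)) ≠ 0 := by
    apply div_ne_zero
    · apply mul_ne_zero (mul_ne_zero (mul_ne_zero two_ne_zero hc) _) _
      · exact (ho i hi).ne'
      · exact (ho j hj).ne'
    · exact mul_ne_zero q0 q1
  exact hne key

/-- existence of the level functions: `E'' = q E - F`, `E(0) = E'(0) = 0` -/
theorem exists_level (q : ℝ) {F : ℝ → ℝ} (hF : Continuous F) : ∃ E E1 : ℝ → ℝ,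
    (∀ t, HasDerivAt E (E1 t) t) ∧ (∀ t, HasDerivAt E1 (q * E t - F t) t) ∧ E 0 = 0 ∧ E1 0 = 0 := by
  -- a second solution of the homogeneous equation with `S(0) = 0`, `S'(0) = 1`
  have cC : Continuous (Cq q) := continuous_iff_continuousAt.2 fun t => (hasDerivAt_Cq q t).continuousAt
  obtain ⟨S, S1, hS, hS1, hS0, hS10⟩ : ∃ S S1 : ℝ → ℝ, (∀ t, HasDerivAt S (S1 t) t) ∧
      (∀ t, HasDerivAt S1 (q * S t) t) ∧ S 0 = 0 ∧ S1 0 = 1 := by
    rcases lt_trichotomy q 0 with h | h | h
    · have hpos : 0 < √(-q) := sqrt_pos.2 (by linarith)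
      have hs : √(-q) * √(-q) = -q := mul_self_sqrt (by linarith)
      refine ⟨fun t => 1 / √(-q) * sin (√(-q) * t), fun t => cos (√(-q) * t), ?_, ?_, by simp, by simp⟩
      · intro t
        refine ((hasDerivAt_sin_om (√(-q)) t).const_mul (1 / √(-q))).congr_deriv ?_
        field_simp
      · intro t
        refine (hasDerivAt_cos_om (√(-q)) t).congr_deriv ?_
        beta_reduce
        have : q = -(√(-q) * √(-q)) := by linarith
        rw [← mul_assoc]
        congr 1
        have h2 : √(-q) * √(-q) / √(-q) = √(-q) := by field_simp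
        calc -√(-q) = -(√(-q) * √(-q) / √(-q)) := by rw [h2]
          _ = -(-q / √(-q)) := by rw [hs]
          _ = q * (1 / √(-q)) := by ring
    · refine ⟨fun t => t, fun _ => 1, fun t => hasDerivAt_id t, ?_, rfl, rfl⟩
      intro t
      rw [h, zero_mul]
      exact hasDerivAt_const t 1
    · have hpos : 0 < √q := sqrt_pos.2 h
      have hs : √q * √q = q := mul_self_sqrt h.le
      refine ⟨fun t => 1 / √q * sinh (√q * t), fun t => cosh (√q * t), ?_, ?_, by simp, by simp⟩
      · intro t
        have h1 : HasDerivAt (fun r : ℝ => √q * r) (√q) t := by simpa using (hasDerivAt_id t).const_mul (√q)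
        refine (h1.sinh.const_mul (1 / √q)).congr_deriv ?_
        field_simp
      · intro t
        have h1 : HasDerivAt (fun r : ℝ => √q * r) (√q) t := by simpa using (hasDerivAt_id t).const_mul (√q)
        refine (h1.cosh).congr_deriv ?_
        beta_reduce
        have h2 : √q * √q / √q = √q := by field_simp
        calc sinh (√q * t) * √q = sinh (√q * t) * (√q * √q / √q) := by rw [h2]
          _ = sinh (√q * t) * (q / √q) := by rw [hs]
          _ = q * (1 / √q * sinh (√q * t)) := by ring
  have cS : Continuous S := continuous_iff_continuousAt.2 fun t => (hS t).continuousAt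
  -- the Wronskian
  have hW : ∀ t, S1 t * Cq q t - S t * Cq1 q t = 1 := by
    have hd : ∀ t, HasDerivAt (fun t => S1 t * Cq q t - S t * Cq1 q t) 0 t := by
      intro t
      refine (((hS1 t).mul (hasDerivAt_Cq q t)).sub ((hS t).mul (hasDerivAt_Cq1 q t))).congr_deriv ?_
      ring
    intro t
    have := is_const_of_deriv_eq_zero (fun x => (hd x).differentiableAt) (fun x => (hd x).deriv) t 0
    rw [this, hS10, hS0, Cq_zero]; ring
  have i1 : ∀ t, HasDerivAt (fun t => ∫ r in (0:ℝ)..t, Cq q r * F r) (Cq q t * F t) t := by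
    intro t
    exact (cC.mul hF).integral_hasStrictDerivAt 0 t |>.hasDerivAt
  have i2 : ∀ t, HasDerivAt (fun t => ∫ r in (0:ℝ)..t, S r * F r) (S t * F t) t := by
    intro t
    exact (cS.mul hF).integral_hasStrictDerivAt 0 t |>.hasDerivAt
  refine ⟨fun t => Cq q t * (∫ r in (0:ℝ)..t, S r * F r) - S t * (∫ r in (0:ℝ)..t, Cq q r * F r),
    fun t => Cq1 q t * (∫ r in (0:ℝ)..t, S r * F r) - S1 t * (∫ r in (0:ℝ)..t, Cq q r * F r), ?_, ?_, ?_, ?_⟩
  · intro t
    refine (((hasDerivAt_Cq q t).mul (i2 t)).sub ((hS t).mul (i1 t))).congr_deriv ?_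
    ring
  · intro t
    refine (((hasDerivAt_Cq1 q t).mul (i2 t)).sub ((hS1 t).mul (i1 t))).congr_deriv ?_
    linear_combination (-F t) * hW t
  · simp
  · simp

end Phi4
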